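import Pool.Agent.R916.OP.Main

/-!
# The faces of the order polytope of the crown poset

The faces are counted with the words on the cyclic zigzag of `Pool.Agent.R916.OP`.
-/

set_option autoImplicit false

namespace Pool.Agent.R806.CRG

open Finset Polynomial
open Pool.Agent.W304.HL Pool.Agent.R916.OP

/-- The inequalities of the order polytope of the crown. -/
inductive Con2 (n : ℕ)
  | lo (p : ZMod n × Bool)
  | hi (p : ZMod n × Bool)
  | st (p : ZMod n × Bool)

/-- embedding into the inequalities of the larger polytope -/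
def emb2 {n : ℕ} : Con2 n → Con n
  | .lo p => .lo p
  | .hi p => .hi p
  | .st p => .st p

instance (n : ℕ) [NeZero n] : Finite (Con2 n) := by
  apply Finite.of_injective (emb2 (n := n))
  intro a b h
  cases a <;> cases b <;> simp only [emb2, Con.lo.injEq, Con.hi.injEq, Con.st.injEq, reduceCtorEq]
    at h <;> rw [h]

section

variable {n : ℕ}

/-- the identity enumeration -/
abbrev e0 (n : ℕ) : Bool ⊕ (ZMod n × Bool) ≃ Bool ⊕ (ZMod n × Bool) := Equiv.refl _

/-- adjoin the values `0` at the bottom and `1` at the top -/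
def ext1 (x : ZMod n × Bool → ℝ) : Bool ⊕ (ZMod n × Bool) → ℝ :=
  Sum.elim (fun b => if b then 1 else 0) x

/-- adjoin the values `0` at the bottom and at the top -/
def ext0 : (ZMod n × Bool → ℝ) →ₗ[ℝ] (Bool ⊕ (ZMod n × Bool) → ℝ) where
  toFun x := Sum.elim (fun _ => 0) x
  map_add' x y := by
    funext a
    rcases a with a | a <;> simp
  map_smul' c x := by
    funext a
    rcases a with a | a <;> simp

lemma ext1_b (x : ZMod n × Bool → ℝ) : ext1 x (yb (e0 n)) = 0 := by simp [ext1, yb]
lemma ext1_t (x : ZMod n × Bool → ℝ) : ext1 x (yt (e0 n)) = 1 := by simp [ext1, yt]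
lemma ext1_p (x : ZMod n × Bool → ℝ) (p) : ext1 x (yp (e0 n) p) = x p := by simp [ext1, yp]
lemma ext0_b (x : ZMod n × Bool → ℝ) : ext0 x (yb (e0 n)) = 0 := by simp [ext0, yb]
lemma ext0_t (x : ZMod n × Bool → ℝ) : ext0 x (yt (e0 n)) = 0 := by simp [ext0, yt]
lemma ext0_p (x : ZMod n × Bool → ℝ) (p) : ext0 x (yp (e0 n) p) = x p := by simp [ext0, yp]

/-- evaluation at a point -/
def pj (p : ZMod n × Bool) : (ZMod n × Bool → ℝ) →ₗ[ℝ] ℝ := LinearMap.proj p

lemma pj_apply (p : ZMod n × Bool) (x : ZMod n × Bool → ℝ) : pj p x = x p := rfl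

/-- left-hand sides -/
def cc2 : Con2 n → (ZMod n × Bool → ℝ) →ₗ[ℝ] ℝ
  | .lo p => - pj p
  | .hi p => pj p
  | .st p => pj (sm p) - pj (la p)

/-- right-hand sides -/
def dd2 : Con2 n → ℝ
  | .hi _ => 1
  | _ => 0

/-- the conditions defining the order polytope of the crown -/
structure InC (x : ZMod n × Bool → ℝ) : Prop where
  lo : ∀ p, 0 ≤ x p
  hi : ∀ p, x p ≤ 1
  st : ∀ p, x (sm p) ≤ x (la p)

lemma inK_ext1 {x : ZMod n × Bool → ℝ} : InK (e0 n) (ext1 x) ↔ InC x := by
  constructor
  · intro h
    refine ⟨fun p => ?_, fun p => ?_, fun p => ?_⟩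
    · have := h.lo p
      rwa [ext1_b, ext1_p] at this
    · have := h.hi p
      rwa [ext1_t, ext1_p] at this
    · have := h.st p
      rwa [ext1_p, ext1_p] at this
  · intro h
    refine ⟨?_, ?_, ?_, fun p => ?_, fun p => ?_, fun p => ?_⟩
    · rw [ext1_b]
    · rw [ext1_t]
    · rw [ext1_b, ext1_t]; norm_num
    · rw [ext1_b, ext1_p]; exact h.lo p
    · rw [ext1_t, ext1_p]; exact h.hi p
    · rw [ext1_p, ext1_p]; exact h.st p

lemma mem_poly2_iff {x : ZMod n × Bool → ℝ} : (x ∈ {x | ∀ i : Con2 n, cc2 i x ≤ dd2 i}) ↔ InC x := by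
  constructor
  · intro h
    refine ⟨fun p => ?_, fun p => ?_, fun p => ?_⟩
    · have := h (.lo p)
      simp only [cc2, dd2, LinearMap.neg_apply, pj_apply] at this
      linarith
    · have := h (.hi p)
      simpa only [cc2, dd2, pj_apply] using this
    · have := h (.st p)
      simp only [cc2, dd2, LinearMap.sub_apply, pj_apply] at this
      linarith
  · intro h i
    cases i with
    | lo p =>
      simp only [cc2, dd2, LinearMap.neg_apply, pj_apply]
      linarith [h.lo p]
    | hi p =>
      simp only [cc2, dd2, pj_apply]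
      exact h.hi p
    | st p =>
      simp only [cc2, dd2, LinearMap.sub_apply, pj_apply]
      linarith [h.st p]

end

section

variable {n : ℕ} [NeZero n]

lemma mem_tight2 (x : ZMod n × Bool → ℝ) (i : Con2 n) :
    i ∈ tight cc2 dd2 x ↔ emb2 i ∈ tight (cc (e0 n)) (dd (n := n)) (ext1 x) := by
  cases i with
  | lo p =>
    show - x p = 0 ↔ _
    rw [emb2, t_lo, ext1_p, ext1_b, neg_eq_zero]
  | hi p =>
    show x p = 1 ↔ _
    rw [emb2, t_hi, ext1_p, ext1_t]
  | st p =>
    show x (sm p) - x (la p) = 0 ↔ _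
    rw [emb2, t_st, ← smla, ext1_p, ext1_p, sub_eq_zero]

open Classical in
/-- the word of a set of tight inequalities -/
noncomputable def ct2 (T : Set (Con2 n)) : ZMod n × Bool → St := fun p =>
  if .lo p ∈ T then .Z else if .hi p ∈ T then .O else if .st p ∈ T then .C else .N

lemma ct2_tight (x : ZMod n × Bool → ℝ) : ct2 (tight cc2 dd2 x) = stt (e0 n) (ext1 x) := by
  funext p
  unfold ct2 stt
  simp only [mem_tight2, emb2, t_lo, t_hi, t_st]

omit [NeZero n] in
lemma ne_bt (x : ZMod n × Bool → ℝ) : ext1 x (yb (e0 n)) ≠ ext1 x (yt (e0 n)) := by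
  rw [ext1_b, ext1_t]; norm_num

omit [NeZero n] in
lemma code_ext1 (x : ZMod n × Bool → ℝ) :
    code (e0 n) (ext1 x) = (true, true, some (stt (e0 n) (ext1 x))) := by
  unfold code
  rw [if_neg (ne_bt x), ext1_b, ext1_t]
  simp

lemma finrank_dirn2 {x : ZMod n × Bool → ℝ} (hx : InC x) :
    Module.finrank ℝ (dirn cc2 (tight cc2 dd2 x)) = dimw (stt (e0 n) (ext1 x)) := by
  have h1 := finrank_dirn (e0 n) (inK_ext1.2 hx)
  rw [code_ext1] at h1
  simp only [dimc, if_true, zero_add] at h1
  rw [← h1]
  have h2 : dirn (cc (e0 n)) (tight (cc (e0 n)) (dd (n := n)) (ext1 x)) =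
      (dirn cc2 (tight cc2 dd2 x)).map ext0 := by
    ext y
    rw [mem_dirn, Submodule.mem_map]
    constructor
    · intro hy
      have kb : y (yb (e0 n)) = 0 := by
        have := hy .b0 ((t_b0 _).2 (ext1_b x))
        simp only [cc, LinearMap.neg_apply, ev_apply] at this
        linarith
      have kt : y (yt (e0 n)) = 0 := by
        have := hy .t1 ((t_t1 _).2 (ext1_t x))
        simpa only [cc, ev_apply] using this
      have hext : ext0 (fun p => y (yp (e0 n) p)) = y := by
        funext a
        refine e_cases (e0 n) (fun a => ext0 (fun p => y (yp (e0 n) p)) a = y a) ?_ ?_ ?_ a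
        · rw [ext0_b, kb]
        · rw [ext0_t, kt]
        · intro p; rw [ext0_p]
      refine ⟨fun p => y (yp (e0 n) p), ?_, hext⟩
      rw [mem_dirn]
      intro i hi
      have h3 := hy _ ((mem_tight2 x i).1 hi)
      cases i with
      | lo p =>
        simp only [emb2, cc, LinearMap.sub_apply, ev_apply, kb] at h3
        simp only [cc2, LinearMap.neg_apply, pj_apply]
        linarith
      | hi p =>
        simp only [emb2, cc, LinearMap.sub_apply, ev_apply, kt] at h3
        simp only [cc2, pj_apply]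
        linarith
      | st p =>
        simp only [emb2, cc, LinearMap.sub_apply, ev_apply] at h3
        simp only [cc2, LinearMap.sub_apply, pj_apply]
        exact h3
    · rintro ⟨z, hz, rfl⟩ i hi
      rw [mem_dirn] at hz
      cases i with
      | b0 => simp only [cc, LinearMap.neg_apply, ev_apply, ext0_b, neg_zero]
      | t1 => simp only [cc, ev_apply, ext0_t]
      | bt => exact absurd ((t_bt _).1 hi) (ne_bt x)
      | lo p =>
        have := hz (.lo p) ((mem_tight2 x (.lo p)).2 hi)
        simp only [cc2, LinearMap.neg_apply, pj_apply] at this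
        simp only [cc, LinearMap.sub_apply, ev_apply, ext0_b, ext0_p]
        linarith
      | hi p =>
        have := hz (.hi p) ((mem_tight2 x (.hi p)).2 hi)
        simp only [cc2, pj_apply] at this
        simp only [cc, LinearMap.sub_apply, ev_apply, ext0_t, ext0_p]
        linarith
      | st p =>
        have := hz (.st p) ((mem_tight2 x (.st p)).2 hi)
        simp only [cc2, LinearMap.sub_apply, pj_apply] at this
        simp only [cc, LinearMap.sub_apply, ev_apply, ext0_p]
        exact this
  rw [h2]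
  have hinj : Function.Injective (ext0 (n := n)) := by
    intro y z h
    funext p
    have := congrFun h (yp (e0 n) p)
    rwa [ext0_p, ext0_p] at this
  exact (LinearEquiv.finrank_eq (Submodule.equivMapOfInjective ext0 hinj _))

lemma ftypes2 (k : ℕ) : (ftypes (cc2 (n := n)) dd2 k).ncard =
    Set.ncard {w : ZMod n × Bool → St | Pool.Agent.R916.OP.Good w ∧ dimw w = k} := by
  have h1 : {w : ZMod n × Bool → St | Pool.Agent.R916.OP.Good w ∧ dimw w = k} =
      ct2 '' ftypes (cc2 (n := n)) dd2 k := by
    ext w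
    constructor
    · rintro ⟨hw, hd⟩
      obtain ⟨x, hx, hc⟩ := realize (e0 n) hw true true
      have hb : x (yb (e0 n)) = 0 := by
        have := congrArg (fun c : Code n => c.1) hc
        exact decide_eq_true_iff.1 this
      have ht : x (yt (e0 n)) = 1 := by
        have := congrArg (fun c : Code n => c.2.1) hc
        exact decide_eq_true_iff.1 this
      have hx1 : ext1 (fun p => x (yp (e0 n) p)) = x := by
        funext a
        refine e_cases (e0 n) (fun a => ext1 (fun p => x (yp (e0 n) p)) a = x a) ?_ ?_ ?_ a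
        · rw [ext1_b, hb]
        · rw [ext1_t, ht]
        · intro p; rw [ext1_p]
      set y : ZMod n × Bool → ℝ := fun p => x (yp (e0 n) p) with hy
      have hyC : InC y := by
        rw [← inK_ext1, hx1]; exact hx
      have hs : stt (e0 n) (ext1 y) = w := by
        rw [← hx1, code_ext1] at hc
        have := congrArg (fun c : Code n => c.2.2) hc
        exact Option.some.inj this
      refine ⟨tight cc2 dd2 y, ⟨⟨y, mem_poly2_iff.2 hyC, rfl⟩, ?_⟩, ?_⟩
      · rw [finrank_dirn2 hyC, hs]; exact hd
      · rw [ct2_tight, hs]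
    · rintro ⟨_, ⟨⟨x, hx, rfl⟩, hd⟩, rfl⟩
      have hxC := mem_poly2_iff.1 hx
      rw [finrank_dirn2 hxC] at hd
      rw [ct2_tight]
      exact ⟨good_stt _ (inK_ext1.2 hxC) (ne_bt x), hd⟩
  rw [h1, Set.InjOn.ncard_image]
  rintro _ ⟨⟨x, hx, rfl⟩, -⟩ _ ⟨⟨y, hy, rfl⟩, -⟩ h
  rw [ct2_tight, ct2_tight] at h
  have hT : tight (cc (e0 n)) (dd (n := n)) (ext1 x) = tight (cc (e0 n)) (dd (n := n)) (ext1 y) := by
    rw [← mt_code (e0 n) (inK_ext1.2 (mem_poly2_iff.1 hx)),
      ← mt_code (e0 n) (inK_ext1.2 (mem_poly2_iff.1 hy)), code_ext1, code_ext1, h]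
  ext i
  rw [mem_tight2, mem_tight2, hT]

variable (n)

open Classical in
/-- generating polynomial of the words -/
noncomputable def QQ : ℝ[X] :=
  ∑ w : ZMod n × Bool → St, if Pool.Agent.R916.OP.Good w then X ^ dimw w else 0

theorem QQ_coeff (k : ℕ) :
    (QQ n).coeff k =
      (Set.ncard {w : ZMod n × Bool → St | Pool.Agent.R916.OP.Good w ∧ dimw w = k} : ℝ) := by
  classical
  have h1 : Set.ncard {w : ZMod n × Bool → St | Pool.Agent.R916.OP.Good w ∧ dimw w = k} =
      (Finset.univ.filter (fun w : ZMod n × Bool → St =>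
        Pool.Agent.R916.OP.Good w ∧ dimw w = k)).card := by
    rw [← Set.ncard_coe_finset]
    congr 1
    ext c
    simp
  rw [h1, Finset.card_filter, QQ, Polynomial.finsetSum_coeff]
  push_cast
  apply Finset.sum_congr rfl
  intro c _
  by_cases h : Pool.Agent.R916.OP.Good c
  · rw [if_pos h, Polynomial.coeff_X_pow]
    by_cases h2 : dimw c = k
    · rw [if_pos h2.symm, if_pos ⟨h, h2⟩]
    · rw [if_neg (fun h' => h2 h'.symm), if_neg (fun h' => h2 h'.2)]
  · rw [if_neg h, if_neg (fun h' => h h'.1)]
    simp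

theorem QQ_eval (t : ℝ) : (QQ n).eval t = W (1 + t) n - 2 * (1 + t) ^ n + 2 + t := by
  classical
  rw [← sum_good, QQ, Polynomial.eval_finsetSum]
  apply Finset.sum_congr rfl
  intro c _
  by_cases h : Pool.Agent.R916.OP.Good c
  · rw [if_pos h, if_pos h]; simp
  · rw [if_neg h, if_neg h]; simp

/-- The number of faces of dimension `k` of the order polytope of the crown. -/
theorem ncard_faces2 (k : ℕ) :
    (Set.ncard (facesOfDim {x : ZMod n × Bool → ℝ | InC x} k) : ℝ) = (QQ n).coeff k := by
  rw [QQ_coeff, ← ftypes2, ← ncard_faces]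
  congr 2
  have : {x : ZMod n × Bool → ℝ | InC x} = poly cc2 dd2 := by
    ext x
    exact mem_poly2_iff.symm
  rw [this]

end

end Pool.Agent.R806.CRG
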