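import Pool.Agent.R806.CR.Num
import Pool.Agent.R806.CR.Geo

/-!
# The f-vector of the order polytope of the crown poset is log-concave
-/

set_option autoImplicit false

namespace Pool.Agent.R806.CR

open Polynomial
open Pool.Agent.W304.HL

lemma W_eq_C (t : ℝ) (n : ℕ) : Pool.Agent.R916.OP.W (1 + t) n =
    (1 + t) ^ n * (Chebyshev.C ℝ n).eval (t + 3) := by
  induction n using Nat.twoStepInduction with
  | zero => simp [Pool.Agent.R916.OP.W]
  | one =>
    simp only [Pool.Agent.R916.OP.W, Nat.cast_one, Chebyshev.C_one, eval_X]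
    ring
  | more n h1 h2 =>
    have e : ((n + 2 : ℕ) : ℤ) = (n : ℤ) + 2 := by push_cast; ring
    have e' : ((n + 1 : ℕ) : ℤ) = (n : ℤ) + 1 := by push_cast; ring
    rw [Pool.Agent.R916.OP.W, h1, h2, e, Chebyshev.C_add_two, e', eval_sub, eval_mul, eval_X]
    ring

lemma QQ_eq (n : ℕ) [NeZero n] : Pool.Agent.R806.CRG.QQ n = F n + C 2 + X := by
  apply Polynomial.funext
  intro t
  rw [Pool.Agent.R806.CRG.QQ_eval, W_eq_C, F, P]
  simp only [eval_add, eval_mul, eval_pow, eval_X, eval_C, eval_sub, eval_comp]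
  ring

/-- positivity of the coefficients -/
lemma F_eq_GG (n : ℕ) [NeZero n] : F n = Pool.Agent.R916.OP.GG n * (X + C 1) ^ 2 := by
  apply Polynomial.eq_of_infinite_eval_eq
  apply (Set.Ioi_infinite (-1 : ℝ)).mono
  intro t ht
  have ht' : -1 < t := ht
  show Polynomial.eval t _ = Polynomial.eval t _
  have h := Pool.Agent.R916.OP.W_GG n ht'
  rw [W_eq_C] at h
  rw [F, P]
  simp only [eval_add, eval_mul, eval_pow, eval_X, eval_C, eval_sub, eval_comp]
  linear_combination h

lemma F_PLC (n : ℕ) [NeZero n] : Pool.Agent.R916.OP.PLC (F n) (2 * n) := by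
  rw [F_eq_GG]
  have h := (Pool.Agent.R916.OP.GG_PLC n).mul_X_add_pow one_pos 2
  have hn : 1 ≤ n := Nat.pos_of_ne_zero (NeZero.ne n)
  have e : 0 + (n - 1) + (n - 1) + 2 = 2 * n := by omega
  rw [e] at h
  exact h

section

variable {n : ℕ} [NeZero n] (a : ℕ → ℕ) (a0 : a 0 = 1)
  (ak : ∀ k, (a (k + 1) : ℝ) = (Pool.Agent.R806.CRG.QQ n).coeff k)

include ak

lemma a_one : (a 1 : ℝ) = 2 + (F n).coeff 0 := by
  rw [ak 0, QQ_eq]
  simp only [coeff_add, coeff_C_zero, coeff_X_zero, add_zero]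
  ring

lemma a_two : (a 2 : ℝ) = 1 + (F n).coeff 1 := by
  rw [ak 1, QQ_eq]
  simp only [coeff_add, coeff_X_one, coeff_C_succ, add_zero]
  ring

lemma a_add (k : ℕ) : (a (k + 3) : ℝ) = (F n).coeff (k + 2) := by
  rw [ak (k + 2), QQ_eq]
  have : (X : ℝ[X]).coeff (k + 2) = 0 := by
    rw [coeff_X, if_neg (by omega)]
  simp only [coeff_add, coeff_C_succ, add_zero, this]

include a0

theorem lc_nat (j : ℕ) : a j * a (j + 2) ≤ a (j + 1) ^ 2 := by
  have h := modified (NeZero.ne n) (fun k => (a k : ℝ)) (by simp [a0]) (a_one a ak) (a_two a ak)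
    (a_add a ak) j
  exact_mod_cast h

theorem pos_iff_nat (i : ℕ) : 0 < a i ↔ i ≤ 2 * n + 1 := by
  have hn : 1 ≤ n := Nat.pos_of_ne_zero (NeZero.ne n)
  have hP := F_PLC n
  rcases i with _ | _ | _ | k
  · simp [a0]
  · have h := a_one a ak
    have h0 := hP.pos 0 (Nat.zero_le _)
    have : (0 : ℝ) < a 1 := by rw [h]; linarith
    have : 0 < a 1 := by exact_mod_cast this
    simp only [zero_add]
    omega
  · have h := a_two a ak
    have h0 := hP.pos 1 (by omega)
    have : (0 : ℝ) < a 2 := by rw [h]; linarith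
    have : 0 < a 2 := by exact_mod_cast this
    have e : 0 + 1 + 1 = 2 := rfl
    rw [e]
    omega
  · have h := a_add a ak k
    have e : k + 1 + 1 + 1 = k + 3 := rfl
    rw [e]
    constructor
    · intro h1
      by_contra h2
      have h3 := hP.zero (k + 2) (by omega)
      rw [h3] at h
      have : a (k + 3) = 0 := by exact_mod_cast h
      omega
    · intro h1
      have h3 := hP.pos (k + 2) (by omega)
      rw [← h] at h3
      exact_mod_cast h3

end

end Pool.Agent.R806.CR
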