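import Mathlib

/-!
# Real-rootedness of the face polynomial of the crown order polytope

`F n = (1+X)^n * ((C_n)(X+3) - 2)` where `C_n` is the Vieta–Lucas (Chebyshev) polynomial.  All roots
are real and `≤ -1`, hence the coefficients are ultra-log-concave.
-/

set_option autoImplicit false

namespace Pool.Agent.R806.CR

open Polynomial

/-! ### Ultra-log-concavity of real-rooted polynomials -/

/-- The sequence `k! c_k`. -/
def bseq (p : ℝ[X]) (k : ℕ) : ℝ := (k.factorial : ℝ) * p.coeff k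

structure Good (p : ℝ[X]) (N : ℕ) : Prop where
  pos : ∀ k ≤ N, 0 < p.coeff k
  zero : ∀ k, N < k → p.coeff k = 0
  lc : ∀ k, bseq p k * bseq p (k + 2) ≤ bseq p (k + 1) ^ 2

lemma Good.nonneg {p : ℝ[X]} {N : ℕ} (h : Good p N) (k : ℕ) : 0 ≤ bseq p k := by
  unfold bseq
  rcases le_or_gt k N with hk | hk
  · exact mul_nonneg (Nat.cast_nonneg _) (h.pos k hk).le
  · rw [h.zero k hk, mul_zero]

lemma Good.bpos {p : ℝ[X]} {N : ℕ} (h : Good p N) {k : ℕ} (hk : k ≤ N) : 0 < bseq p k :=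
  mul_pos (by exact_mod_cast Nat.factorial_pos k) (h.pos k hk)

lemma Good.cross {p : ℝ[X]} {N : ℕ} (h : Good p N) (k : ℕ) :
    bseq p k * bseq p (k + 3) ≤ bseq p (k + 1) * bseq p (k + 2) := by
  rcases le_or_gt (k + 3) N with hk | hk
  · have h1 := h.lc k
    have h2 := h.lc (k + 1)
    have p0 := h.bpos (k := k) (by omega)
    have p1 := h.bpos (k := k + 1) (by omega)
    have p2 := h.bpos (k := k + 2) (by omega)
    have p3 := h.bpos (k := k + 3) (by omega)
    have h3 : bseq p k * bseq p (k + 2) * (bseq p (k + 1) * bseq p (k + 3)) ≤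
        bseq p (k + 1) ^ 2 * bseq p (k + 2) ^ 2 :=
      mul_le_mul h1 h2 (by positivity) (by positivity)
    have h4 : 0 < bseq p (k + 1) * bseq p (k + 2) := by positivity
    by_contra hcon
    rw [not_le] at hcon
    have := mul_lt_mul_of_pos_right hcon h4
    nlinarith
  · have : bseq p (k + 3) = 0 := by rw [bseq, h.zero _ hk, mul_zero]
    rw [this, mul_zero]
    exact mul_nonneg (h.nonneg _) (h.nonneg _)

lemma coeff_mul_add (p : ℝ[X]) (c : ℝ) (k : ℕ) :
    ((X + C c) * p).coeff (k + 1) = p.coeff k + c * p.coeff (k + 1) := by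
  rw [add_mul, coeff_add, coeff_X_mul, coeff_C_mul]

lemma coeff_mul_add_zero (p : ℝ[X]) (c : ℝ) :
    ((X + C c) * p).coeff 0 = c * p.coeff 0 := by
  rw [add_mul, coeff_add, coeff_C_mul, mul_coeff_zero, coeff_X_zero, zero_mul, zero_add]

lemma bseq_mul_add (p : ℝ[X]) (c : ℝ) (k : ℕ) :
    bseq ((X + C c) * p) (k + 1) = (k + 1) * bseq p k + c * bseq p (k + 1) := by
  rw [bseq, coeff_mul_add, bseq, bseq, Nat.factorial_succ]
  push_cast
  ring

lemma bseq_mul_add_zero (p : ℝ[X]) (c : ℝ) :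
    bseq ((X + C c) * p) 0 = c * bseq p 0 := by
  rw [bseq, coeff_mul_add_zero, bseq]
  ring

lemma Good.mul_add {p : ℝ[X]} {N : ℕ} (h : Good p N) {c : ℝ} (hc : 0 < c) :
    Good ((X + C c) * p) (N + 1) where
  pos := by
    intro k hk
    rcases k with _ | k
    · rw [coeff_mul_add_zero]
      exact mul_pos hc (h.pos 0 (by omega))
    · rw [coeff_mul_add]
      have h1 := h.pos k (by omega)
      have h2 : 0 ≤ p.coeff (k + 1) := by
        rcases le_or_gt (k + 1) N with hk | hk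
        · exact (h.pos _ hk).le
        · rw [h.zero _ hk]
      positivity
  zero := by
    intro k hk
    rcases k with _ | k
    · omega
    · rw [coeff_mul_add, h.zero k (by omega), h.zero (k + 1) (by omega), mul_zero, add_zero]
  lc := by
    intro k
    rcases k with _ | k
    · rw [bseq_mul_add_zero, bseq_mul_add, bseq_mul_add]
      have h0 := h.lc 0
      have n0 := h.nonneg 0
      have n1 := h.nonneg 1
      have : 0 ≤ c ^ 2 * (bseq p (0 + 1) ^ 2 - bseq p 0 * bseq p (0 + 2)) := by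
        apply mul_nonneg (by positivity); linarith
      push_cast
      simp only [zero_add] at *
      nlinarith [mul_nonneg n0 n0]
    · rw [bseq_mul_add, bseq_mul_add, bseq_mul_add]
      have h1 := h.lc k
      have h2 := h.lc (k + 1)
      have h3 := h.cross k
      have n0 := h.nonneg k
      have n1 := h.nonneg (k + 1)
      have e1 : 0 ≤ c ^ 2 * (bseq p (k + 1 + 1) ^ 2 - bseq p (k + 1) * bseq p (k + 1 + 2)) := by
        apply mul_nonneg (by positivity); linarith
      have e2 : 0 ≤ ((k : ℝ) + 1) * ((k : ℝ) + 3) *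
          (bseq p (k + 1) ^ 2 - bseq p k * bseq p (k + 2)) := by
        apply mul_nonneg (by positivity); linarith
      have e3 : 0 ≤ c * ((k : ℝ) + 1) *
          (bseq p (k + 1) * bseq p (k + 2) - bseq p k * bseq p (k + 3)) := by
        apply mul_nonneg (by positivity); linarith
      have e4 : 0 ≤ bseq p (k + 1) ^ 2 := sq_nonneg _
      simp only [show k + 1 + 1 = k + 2 from rfl, show k + 1 + 2 = k + 3 from rfl] at *
      push_cast
      nlinarith

lemma good_C {a : ℝ} (ha : 0 < a) : Good (C a) 0 where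
  pos := by
    intro k hk
    obtain rfl : k = 0 := by omega
    rwa [coeff_C_zero]
  zero := by
    intro k hk
    exact coeff_C_of_ne_zero (by omega)
  lc := by
    intro k
    have : bseq (C a) (k + 2) = 0 := by rw [bseq, coeff_C_of_ne_zero (by omega), mul_zero]
    rw [this, mul_zero]
    positivity

lemma good_prod {a : ℝ} (ha : 0 < a) (M : Multiset ℝ) (hM : ∀ ρ ∈ M, (1 : ℝ) ≤ ρ) :
    Good ((M.map fun ρ => X + C ρ).prod * C a) (Multiset.card M) ∧
    ((M.map fun ρ => X + C ρ).prod * C a).coeff 1 ≤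
      Multiset.card M * ((M.map fun ρ => X + C ρ).prod * C a).coeff 0 := by
  induction M using Multiset.induction_on with
  | empty =>
    rw [Multiset.map_zero, Multiset.prod_zero, one_mul, Multiset.card_zero]
    refine ⟨good_C ha, ?_⟩
    rw [coeff_C_of_ne_zero one_ne_zero]
    simp
  | cons ρ M ih =>
    obtain ⟨ih1, ih2⟩ := ih fun x hx => hM x (Multiset.mem_cons_of_mem hx)
    have hρ := hM ρ (Multiset.mem_cons_self _ _)
    rw [Multiset.map_cons, Multiset.prod_cons, mul_assoc, Multiset.card_cons]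
    refine ⟨ih1.mul_add (by linarith), ?_⟩
    rw [coeff_mul_add, coeff_mul_add_zero]
    set q := (M.map fun ρ => X + C ρ).prod * C a
    have h0 := ih1.pos 0 (Nat.zero_le _)
    push_cast
    have := mul_le_mul_of_nonneg_left ih2 (by linarith : (0:ℝ) ≤ ρ)
    have h3 : q.coeff 0 ≤ ρ * q.coeff 0 := by nlinarith
    nlinarith

/-! ### The polynomial -/

/-- `P n = C_n(X+3) - 2`. -/
noncomputable def P (n : ℕ) : ℝ[X] := (Chebyshev.C ℝ n).comp (X + C 3) - C 2

lemma pell (n : ℤ) : (Chebyshev.C ℝ n - C 2) * (Chebyshev.C ℝ n + C 2) =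
    (X - C 2) * (X + C 2) * Chebyshev.S ℝ (n - 1) ^ 2 := by
  have h1 := Chebyshev.C_eq_S_sub_X_mul_S ℝ n
  have h2 := Chebyshev.S_sq_add_S_sq ℝ (n - 1)
  rw [sub_add_cancel] at h2
  have h3 : (C 2 : ℝ[X]) = 2 := rfl
  rw [h3, h1]
  linear_combination (4 : ℝ[X]) * h2

lemma splits_U (n : ℕ) : (Chebyshev.U ℝ n).Splits := by
  rw [splits_iff_card_roots, Chebyshev.roots_U_real, Chebyshev.natDegree_U_natCast]
  rw [← Finset.card_def, Finset.card_image_of_injOn, Finset.card_range]
  exact (Finset.range n).nodup_map_iff_injOn.mp (Chebyshev.roots_U_real_nodup n)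

lemma splits_S (n : ℕ) : (Chebyshev.S ℝ n).Splits := by
  have : Invertible (2 : ℝ) := invertibleOfNonzero two_ne_zero
  rw [Chebyshev.S_eq_U_comp_half_mul_X]
  refine (splits_U n).comp_of_natDegree_le_one_of_invertible ?_ ?_
  · exact (natDegree_C_mul_le _ _).trans natDegree_X_le
  · rw [leadingCoeff_mul, leadingCoeff_C, leadingCoeff_X, mul_one]
    infer_instance

lemma splits_P {n : ℕ} (hn : n ≠ 0) : (P n).Splits := by
  have h1 : ((Chebyshev.C ℝ n) - C 2).Splits := by
    obtain ⟨m, rfl⟩ := Nat.exists_eq_succ_of_ne_zero hn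
    have hS : ((X - C 2) * (X + C 2) * Chebyshev.S ℝ (((m.succ : ℕ) : ℤ) - 1) ^ 2 : ℝ[X]).Splits := by
      have : (((m.succ : ℕ) : ℤ) - 1) = (m : ℤ) := by push_cast; ring
      rw [this]
      exact ((Splits.X_sub_C _).mul (Splits.X_add_C _)).mul ((splits_S m).pow 2)
    refine hS.of_dvd ?_ ⟨_, (pell _).symm⟩
    have : (((m.succ : ℕ) : ℤ) - 1) = (m : ℤ) := by push_cast; ring
    rw [this]
    refine mul_ne_zero (mul_ne_zero (X_sub_C_ne_zero _) (X_add_C_ne_zero _)) (pow_ne_zero _ ?_)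
    intro h0
    have h1 := Chebyshev.S_comp_two_mul_X ℝ (m : ℤ)
    rw [h0, zero_comp] at h1
    exact Chebyshev.U_ne_zero ℝ (m : ℤ) (by omega) h1.symm
  have h2 : P n = ((Chebyshev.C ℝ n) - C 2).comp (X + C 3) := by
    rw [sub_comp, C_comp]; rfl
  rw [h2]
  exact h1.comp_X_add_C 3

lemma eval_C_gt {n : ℕ} (hn : n ≠ 0) {y : ℝ} (hy : 2 < y) : 2 < (Chebyshev.C ℝ n).eval y := by
  have h1 := congrArg (eval (y / 2)) (Chebyshev.C_comp_two_mul_X ℝ (n : ℤ))
  rw [eval_comp] at h1
  simp only [eval_mul, eval_ofNat, eval_X] at h1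
  have h2 : (2 : ℝ) * (y / 2) = y := by ring
  rw [h2] at h1
  have h3 := Chebyshev.one_lt_eval_T_real (n := (n : ℤ)) (by exact_mod_cast hn)
    (x := y / 2) (by linarith)
  rw [h1]
  linarith

lemma root_le {n : ℕ} (hn : n ≠ 0) {r : ℝ} (hr : r ∈ (P n).roots) : r ≤ -1 := by
  by_contra h
  rw [not_le] at h
  have h1 := (mem_roots'.1 hr).2
  rw [IsRoot.def, P, eval_sub, eval_comp, eval_C, eval_add, eval_X, eval_C] at h1
  have := eval_C_gt hn (y := r + 3) (by linarith)
  linarith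

lemma natDegree_P_le (n : ℕ) : (P n).natDegree ≤ n := by
  have hC : ∀ n : ℕ, (Chebyshev.C ℝ n).natDegree ≤ n := by
    intro n
    induction n using Nat.twoStepInduction with
    | zero => simp [Chebyshev.C_zero]
    | one => simp
    | more n h1 h2 =>
      have : ((n + 2 : ℕ) : ℤ) = (n : ℤ) + 2 := by push_cast; ring
      rw [this, Chebyshev.C_add_two]
      refine (natDegree_sub_le _ _).trans (max_le ?_ ?_)
      · refine natDegree_mul_le.trans ?_
        have : ((n : ℤ) + 1) = ((n + 1 : ℕ) : ℤ) := by push_cast; ring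
        rw [this, natDegree_X]
        omega
      · omega
  refine (natDegree_sub_le _ _).trans (max_le ?_ ?_)
  · refine natDegree_comp_le.trans ?_
    rw [natDegree_X_add_C, mul_one]
    exact hC n
  · rw [natDegree_C]; omega

/-- `Cval n = C_n(3)`, the Lucas number `L(2n)`. -/
lemma Cval (n : ℕ) : (Chebyshev.C ℝ (n + 1 : ℕ)).eval 3 ≥ 2 * (n + 1) + 1 ∧
    (Chebyshev.C ℝ (n + 2 : ℕ)).eval 3 ≥ (Chebyshev.C ℝ (n + 1 : ℕ)).eval 3 + 2 := by
  induction n with
  | zero =>
    have h2 : (Chebyshev.C ℝ ((0 + 2 : ℕ) : ℤ)) = X ^ 2 - 2 := Chebyshev.C_two ℝ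
    have h1 : (Chebyshev.C ℝ ((0 + 1 : ℕ) : ℤ)) = X := Chebyshev.C_one ℝ
    rw [h1, h2]
    simp only [eval_X, eval_sub, eval_pow, eval_ofNat]
    norm_num
  | succ n ih =>
    obtain ⟨h1, h2⟩ := ih
    have h3 : (Chebyshev.C ℝ ((n + 1 + 2 : ℕ) : ℤ)).eval 3 =
        3 * (Chebyshev.C ℝ ((n + 2 : ℕ) : ℤ)).eval 3 - (Chebyshev.C ℝ ((n + 1 : ℕ) : ℤ)).eval 3 := by
      have e : ((n + 1 + 2 : ℕ) : ℤ) = ((n + 1 : ℕ) : ℤ) + 2 := by push_cast; ring
      have e2 : ((n + 1 : ℕ) : ℤ) + 1 = ((n + 2 : ℕ) : ℤ) := by push_cast; ring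
      rw [e, Chebyshev.C_add_two, e2, eval_sub, eval_mul, eval_X]
    have e3 : (n + 1 + 1 : ℕ) = n + 2 := rfl
    rw [h3, e3]
    refine ⟨?_, ?_⟩
    · have : (((n + 1 : ℕ) : ℝ)) = n + 1 := by push_cast; ring
      rw [this]; linarith
    · have : (0 : ℝ) ≤ n := Nat.cast_nonneg n
      linarith

/-- `F n = (1+X)^n * P n`. -/
noncomputable def F (n : ℕ) : ℝ[X] := (X + C 1) ^ n * P n

lemma P_form {n : ℕ} (hn : n ≠ 0) : ∃ (a : ℝ) (M : Multiset ℝ), 0 < a ∧
    (∀ ρ ∈ M, (1 : ℝ) ≤ ρ) ∧ Multiset.card M ≤ n ∧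
    P n = (M.map fun ρ => X + C ρ).prod * C a := by
  have hs := (splits_P hn).eq_prod_roots
  set a := (P n).leadingCoeff with ha
  have ha0 : 0 < a := by
    have e1 : (P n).eval 0 = ((P n).roots.map fun r => -r).prod * a := by
      conv_lhs => rw [hs]
      rw [eval_mul, eval_C, eval_multiset_prod, Multiset.map_map, mul_comm]
      congr 2
      refine Multiset.map_congr rfl fun r _ => ?_
      simp
    have e2 : 0 < (P n).eval 0 := by
      rw [P, eval_sub, eval_comp, eval_C, eval_add, eval_X, eval_C, zero_add]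
      have := eval_C_gt hn (y := 3) (by norm_num)
      linarith
    have e3 : 0 < ((P n).roots.map fun r => -r).prod := by
      refine Multiset.prod_pos fun x hx => ?_
      obtain ⟨r, hr, rfl⟩ := Multiset.mem_map.1 hx
      have := root_le hn hr
      linarith
    rw [e1] at e2
    exact (pos_iff_pos_of_mul_pos e2).1 e3
  refine ⟨a, (P n).roots.map (fun r => -r), ha0, ?_, ?_, ?_⟩
  · intro ρ hρ
    obtain ⟨r, hr, rfl⟩ := Multiset.mem_map.1 hρ
    have := root_le hn hr
    linarith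
  · rw [Multiset.card_map]
    exact (P n).card_roots'.trans (natDegree_P_le n)
  · conv_lhs => rw [hs]
    rw [Multiset.map_map, mul_comm]
    congr 2
    refine Multiset.map_congr rfl fun r _ => ?_
    simp [sub_eq_add_neg]

theorem good_F {n : ℕ} (hn : n ≠ 0) : ∃ N, N ≤ 2 * n ∧ Good (F n) N ∧
    (F n).coeff 1 ≤ N * (F n).coeff 0 := by
  obtain ⟨a, M, ha, hM, hc, hP⟩ := P_form hn
  have h1 : F n = ((Multiset.replicate n 1 + M).map fun ρ => X + C ρ).prod * C a := by
    rw [F, hP, Multiset.map_add, Multiset.prod_add, Multiset.map_replicate,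
      Multiset.prod_replicate, mul_assoc]
  refine ⟨Multiset.card (Multiset.replicate n (1 : ℝ) + M), ?_, ?_⟩
  · rw [Multiset.card_add, Multiset.card_replicate]
    omega
  · rw [h1]
    refine good_prod ha _ fun ρ hρ => ?_
    rw [Multiset.mem_add] at hρ
    rcases hρ with hρ | hρ
    · rw [Multiset.eq_of_mem_replicate hρ]
    · exact hM ρ hρ

lemma P_coeff_one_nonneg {n : ℕ} (hn : n ≠ 0) : 0 ≤ (P n).coeff 1 := by
  obtain ⟨a, M, ha, hM, hc, hP⟩ := P_form hn
  rw [hP]
  have hg := (good_prod ha M hM).1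
  rcases le_or_gt 1 (Multiset.card M) with h | h
  · exact (hg.pos 1 h).le
  · exact (hg.zero 1 h).ge

lemma F_coeff_zero (n : ℕ) : (F n).coeff 0 = (Chebyshev.C ℝ n).eval 3 - 2 := by
  rw [coeff_zero_eq_eval_zero, F, P]
  simp [eval_comp]

lemma F_coeff_one (n : ℕ) : (F n).coeff 1 = n * (P n).coeff 0 + (P n).coeff 1 := by
  have h1 : ∀ n : ℕ, ((X + C 1 : ℝ[X]) ^ n).coeff 0 = 1 := by
    intro n
    rw [coeff_zero_eq_eval_zero]; simp
  have h2 : ∀ n : ℕ, ((X + C 1 : ℝ[X]) ^ n).coeff 1 = n := by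
    intro n
    induction n with
    | zero => simp [coeff_one]
    | succ n ih =>
      rw [pow_succ', coeff_mul_add, ih, h1]
      push_cast; ring
  rw [F, coeff_mul, Finset.Nat.sum_antidiagonal_eq_sum_range_succ_mk, Finset.sum_range_succ,
    Finset.sum_range_succ, Finset.sum_range_zero, h1, h2]
  simp only [zero_add, one_mul, Nat.sub_zero, Nat.sub_self]
  ring

/-- The log-concavity of the modified sequence. -/
theorem modified {n : ℕ} (hn : n ≠ 0) (a : ℕ → ℝ) (a0 : a 0 = 1) (a1 : a 1 = 2 + (F n).coeff 0)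
    (a2 : a 2 = 1 + (F n).coeff 1) (ak : ∀ k, a (k + 3) = (F n).coeff (k + 2)) (j : ℕ) :
    a j * a (j + 2) ≤ a (j + 1) ^ 2 := by
  obtain ⟨N, hN, hg, h01⟩ := good_F hn
  set c := fun k => (F n).coeff k with hc
  have ulc : ∀ k : ℕ, ((k : ℝ) + 2) * (c k * c (k + 2)) ≤ (k + 1) * c (k + 1) ^ 2 := by
    intro k
    have h := hg.lc k
    simp only [bseq, Nat.factorial_succ] at h
    push_cast at h
    have hf : (0 : ℝ) < (k.factorial : ℝ) := by exact_mod_cast Nat.factorial_pos k
    have hk : (0 : ℝ) < (k : ℝ) + 1 := by positivity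
    have e : (k.factorial : ℝ) ^ 2 * ((k : ℝ) + 1) * (((k : ℝ) + 2) * (c k * c (k + 2))) ≤
        (k.factorial : ℝ) ^ 2 * ((k : ℝ) + 1) * ((k + 1) * c (k + 1) ^ 2) := by
      simp only [hc]
      nlinarith [h]
    exact le_of_mul_le_mul_left e (by positivity)
  have nn : ∀ k, 0 ≤ c k := by
    intro k
    rcases le_or_gt k N with hk | hk
    · exact (hg.pos k hk).le
    · exact (hg.zero k hk).ge
  have hc0 : c 0 = (Chebyshev.C ℝ n).eval 3 - 2 := F_coeff_zero n
  have hP0 : (P n).coeff 0 = c 0 := by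
    rw [hc0, coeff_zero_eq_eval_zero, P]
    simp [eval_comp]
  obtain ⟨m, rfl⟩ := Nat.exists_eq_succ_of_ne_zero hn
  have hV := (Cval m).1
  have hc0' : (2 * (m : ℝ) + 1) ≤ c 0 := by
    rw [hc0]
    have : ((m.succ : ℕ) : ℤ) = ((m + 1 : ℕ) : ℤ) := rfl
    rw [this]
    linarith
  have hNm : (N : ℝ) ≤ 2 * (m + 1) := by exact_mod_cast hN
  have hm0 : (0 : ℝ) ≤ m := Nat.cast_nonneg m
  have hc1 : c 1 ≤ 2 * (m + 1) * c 0 :=
    h01.trans (mul_le_mul_of_nonneg_right hNm (nn 0))
  -- two cases: `n = 1` or `n ≥ 2`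
  have hP1 : 0 ≤ (P (m + 1)).coeff 1 := P_coeff_one_nonneg (Nat.succ_ne_zero m)
  have hc1' : ((m : ℝ) + 1) * c 0 ≤ c 1 := by
    have := F_coeff_one (m + 1)
    simp only [hc] at *
    rw [this, hP0]
    push_cast
    linarith
  rcases j with _ | _ | _ | j
  · rw [a0, a2, a1]
    have : (F (m+1)).coeff 1 = c 1 := rfl
    rw [this]
    have : (F (m+1)).coeff 0 = c 0 := rfl
    rw [this]
    nlinarith
  · -- `j = 1`
    have e1 : a (0 + 1) = 2 + c 0 := a1
    have e2 : a (0 + 1 + 1) = 1 + c 1 := a2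
    have e3 : a (0 + 1 + 2) = c 2 := ak 0
    rw [e1, e2, e3]
    have u := ulc 0
    norm_num at u
    have n1 := nn 1
    have n2 := nn 2
    rcases m with _ | m
    · -- `n = 1`
      have hF : F 1 = (X + C 1) ^ 2 := by
        have : (C 3 : ℝ[X]) - C 2 = C 1 := by rw [← C_sub]; norm_num
        rw [F, P, Nat.cast_one, Chebyshev.C_one, X_comp, add_sub_assoc, this]
        ring
      have k0 : c 0 = 1 := by
        simp only [hc]
        rw [hF, coeff_zero_eq_eval_zero]
        simp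
      rw [k0] at u ⊢
      have h12 : c 1 ≤ 2 := by
        have := hc1
        rw [k0] at this
        norm_num at this
        exact this
      have h13 : c 1 * c 1 ≤ 2 * c 1 := mul_le_mul_of_nonneg_right h12 n1
      nlinarith
    · push_cast at hc0'
      have : (2 : ℝ) ≤ c 0 := by
        have : (0 : ℝ) ≤ m := Nat.cast_nonneg m
        linarith
      nlinarith
  · -- `j = 2`
    have e2 : a (0 + 1 + 1) = 1 + c 1 := a2
    have e3 : a (0 + 1 + 1 + 1) = c 2 := ak 0
    have e4 : a (0 + 1 + 1 + 2) = c 3 := ak 1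
    rw [e2, e3, e4]
    have u := ulc 1
    norm_num at u
    have n3 := nn 3
    rcases m with _ | m
    · have : c 3 = 0 := hg.zero 3 (by omega)
      rw [this, mul_zero]
      positivity
    · push_cast at hc0' hc1'
      have h2 : (0 : ℝ) ≤ m := Nat.cast_nonneg m
      have : (2 : ℝ) ≤ c 1 := by
        nlinarith
      nlinarith
  · rw [ak, ak, ak]
    have h1 := ulc (j + 2)
    have n2 := nn (j + 2)
    have n4 := nn (j + 2 + 2)
    have n3 : 0 ≤ c (j + 2 + 1) ^ 2 := sq_nonneg _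
    push_cast at h1
    have hj : (0 : ℝ) ≤ j := Nat.cast_nonneg j
    have : c (j + 2) * c (j + 2 + 2) ≤ c (j + 2 + 1) ^ 2 := by
      by_contra hcon
      rw [not_le] at hcon
      have h5 : 0 ≤ c (j + 2) * c (j + 2 + 2) := mul_nonneg n2 n4
      nlinarith
    exact this

end Pool.Agent.R806.CR
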